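import Pool.Agent.H242.GX.Stm

/-! # Project GX (helper242): GX-LIN (by helper703) -/

set_option autoImplicit false

open Set Filter Topology
open scoped ContDiff

namespace Pool.Agent.H703.GX.LIN

open Pool.Agent.H242.GX

theorem inf_ne : (∞ : WithTop ℕ∞) ≠ 0 := by
  intro h
  exact absurd h (by decide)

theorem diffR (R : ℝ → ℝ) (hR : ContDiff ℝ ∞ R) : Differentiable ℝ R :=
  hR.differentiable inf_ne

theorem contDiff_deriv (R : ℝ → ℝ) (hR : ContDiff ℝ ∞ R) : ContDiff ℝ ∞ (deriv R) :=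
  (contDiff_infty_iff_deriv.mp hR).2

theorem deriv_tR (R : ℝ → ℝ) (hR : ContDiff ℝ ∞ R) (t : ℝ) :
    HasDerivAt (fun t => t * R t) (R t + t * deriv R t) t := by
  have h1 : HasDerivAt R (deriv R t) t := (diffR R hR t).hasDerivAt
  have h2 := (hasDerivAt_id t).mul h1
  have h3 : (1 : ℝ) * R t + id t * deriv R t = R t + t * deriv R t := by
    rw [one_mul, id]
  rw [h3] at h2
  exact h2

theorem deriv_tR0 (R : ℝ → ℝ) (hR : ContDiff ℝ ∞ R) : deriv (fun t => t * R t) 0 = R 0 := by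
  rw [(deriv_tR R hR 0).deriv, zero_mul, add_zero]

theorem deriv2_tR0 (R : ℝ → ℝ) (hR : ContDiff ℝ ∞ R) :
    deriv (deriv (fun t => t * R t)) 0 = 2 * deriv R 0 := by
  have e : deriv (fun t => t * R t) = fun t => R t + t * deriv R t :=
    funext fun t => (deriv_tR R hR t).deriv
  rw [e]
  have h1 : HasDerivAt R (deriv R 0) 0 := (diffR R hR 0).hasDerivAt
  have h2 := h1.add (deriv_tR (deriv R) (contDiff_deriv R hR) 0)
  have h3 := h2.deriv
  refine Eq.trans h3 ?_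
  ring

/-- **GX-LIN.** -/
theorem gx_LIN (hHAD : S_HAD) : S_LIN := by
  intro X Z hW n hn u hu
  have hX1 : ContDiff ℝ ∞ (fun x => (X x).1) := contDiff_fst.comp hW.smX
  have hX2 : ContDiff ℝ ∞ (fun x => (X x).2) := contDiff_snd.comp hW.smX
  obtain ⟨r, hr, hrX⟩ := hHAD (fun x => (X x).2) hX2 (fun θ => by
    show (X (θ, 0)).2 = 0
    rw [hW.axis])
  have hrX' : ∀ θ t : ℝ, (X (θ, t)).2 = t * r (θ, t) := hrX
  obtain ⟨q, hq⟩ : ∃ q : ℝ × ℝ → ℝ, q = fun x => r x ^ (2 * n) * u (X x).1 := ⟨_, rfl⟩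
  have hqs : ContDiff ℝ ∞ q := by
    rw [hq]
    exact (hr.pow _).mul (hu.smooth.comp hX1)
  have hneg : ContDiff ℝ ∞ (fun x : ℝ × ℝ => (x.1, -x.2)) := contDiff_fst.prodMk contDiff_snd.neg
  obtain ⟨s, hs, hsq⟩ := hHAD (fun x => q x - q (x.1, -x.2)) (hqs.sub (hqs.comp hneg)) (fun θ => by
    show q (θ, 0) - q (θ, -0) = 0
    rw [neg_zero, sub_self])
  have hsq' : ∀ θ t : ℝ, q (θ, t) - q (θ, -t) = t * s (θ, t) := hsq
  refine ⟨s, hs, ?_, ?_, ?_⟩
  · intro θ t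
    unfold Pool.Agent.H242.GX.Odd
    show ((X (θ, t)).2 ^ 2) ^ n * u (X (θ, t)).1 - ((X (θ, -t)).2 ^ 2) ^ n * u (X (θ, -t)).1 =
      t ^ (2 * n + 1) * s (θ, t)
    have e1 : t ^ (2 * n + 1) * s (θ, t) = t ^ (2 * n) * (q (θ, t) - q (θ, -t)) := by
      rw [hsq']
      ring
    rw [e1, hrX', hrX', hq]
    show ((t * r (θ, t)) ^ 2) ^ n * u (X (θ, t)).1 - ((-t * r (θ, -t)) ^ 2) ^ n * u (X (θ, -t)).1 =
      t ^ (2 * n) * (r (θ, t) ^ (2 * n) * u (X (θ, t)).1 - r (θ, -t) ^ (2 * n) * u (X (θ, -t)).1)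
    rw [← pow_mul, ← pow_mul, mul_pow, mul_pow]
    have e2 : (-t) ^ (2 * n) = t ^ (2 * n) := by
      rw [pow_mul, pow_mul, neg_sq]
    rw [e2]
    ring
  · intro θ t
    by_cases ht : t = 0
    · rw [ht, neg_zero]
    · have h1 := hsq' θ t
      have h2 := hsq' θ (-t)
      rw [neg_neg] at h2
      have h3 : t * s (θ, -t) = t * s (θ, t) := by linarith
      exact mul_left_cancel₀ ht h3
  · intro θ
    have hline : ContDiff ℝ ∞ (fun t : ℝ => (θ, t)) := contDiff_const.prodMk contDiff_id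
    have hR : ContDiff ℝ ∞ (fun t => r (θ, t)) := hr.comp hline
    have hS : ContDiff ℝ ∞ (fun t => s (θ, t)) := hs.comp hline
    have hX1l : ContDiff ℝ ∞ (fun t => (X (θ, t)).1) := hX1.comp hline
    have hql : ContDiff ℝ ∞ (fun t => q (θ, t)) := hqs.comp hline
    have e1 : (fun t => (X (θ, t)).2) = fun t => t * r (θ, t) := funext fun t => hrX' θ t
    rw [e1, deriv_tR0 _ hR, deriv2_tR0 _ hR]
    -- the derivative of `q`
    have hX10 : (X (θ, 0)).1 = θ := by rw [hW.axis]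
    have d1 : HasDerivAt (fun t => r (θ, t)) (deriv (fun t => r (θ, t)) 0) 0 :=
      (diffR _ hR 0).hasDerivAt
    have d2 : HasDerivAt (fun t => (X (θ, t)).1) (deriv (fun t => (X (θ, t)).1) 0) 0 :=
      (diffR _ hX1l 0).hasDerivAt
    have d3 : HasDerivAt u (deriv u θ) ((X (θ, 0)).1) := by
      rw [hX10]
      exact (diffR _ hu.smooth θ).hasDerivAt
    have d4 : HasDerivAt (fun t => u (X (θ, t)).1)
        (deriv u θ * deriv (fun t => (X (θ, t)).1) 0) 0 := HasDerivAt.comp (0 : ℝ) d3 d2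
    have d5 := (d1.pow (2 * n)).mul d4
    have d6 : HasDerivAt (fun t => q (θ, t)) (((2 * n : ℕ) : ℝ) * r (θ, 0) ^ (2 * n - 1) *
        deriv (fun t => r (θ, t)) 0 * u (X (θ, 0)).1 +
        r (θ, 0) ^ (2 * n) * (deriv u θ * deriv (fun t => (X (θ, t)).1) 0)) 0 := by
      rw [hq]
      exact d5
    rw [hX10] at d6
    -- the derivative of `q (θ, -t)`
    have d7 : HasDerivAt (fun t : ℝ => q (θ, -t)) (-(((2 * n : ℕ) : ℝ) * r (θ, 0) ^ (2 * n - 1) *
        deriv (fun t => r (θ, t)) 0 * u θ +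
        r (θ, 0) ^ (2 * n) * (deriv u θ * deriv (fun t => (X (θ, t)).1) 0))) 0 := by
      have d8 : HasDerivAt (fun t : ℝ => -t) (-1 : ℝ) 0 := hasDerivAt_neg (0 : ℝ)
      have d9 : HasDerivAt (fun t => q (θ, t)) (((2 * n : ℕ) : ℝ) * r (θ, 0) ^ (2 * n - 1) *
        deriv (fun t => r (θ, t)) 0 * u θ +
        r (θ, 0) ^ (2 * n) * (deriv u θ * deriv (fun t => (X (θ, t)).1) 0)) (-(0 : ℝ)) := by
        rw [neg_zero]
        exact d6
      have d10 := HasDerivAt.comp (0 : ℝ) d9 d8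
      rw [mul_neg_one] at d10
      exact d10
    have d11 := (d6.sub d7).deriv
    have e2 : (fun t : ℝ => q (θ, t)) - (fun t : ℝ => q (θ, -t)) = fun t => t * s (θ, t) :=
      funext fun t => hsq' θ t
    rw [e2, deriv_tR0 _ hS] at d11
    rw [d11]
    push_cast
    ring

end Pool.Agent.H703.GX.LIN
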